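import Mathlib

namespace Pool.Agent.Results.MP_9e9a14_co.DisjointTriangles

open scoped Classical in
/-- The vertex sum `σ_w(v)`: the sum of the weights of the edges at `v`. -/
noncomputable def vertexSum {V : Type} [Fintype V] {G : SimpleGraph V}
    (w : G.edgeSet → ℝ) (v : V) : ℝ :=
  ∑ e : G.edgeSet, if v ∈ (e : Sym2 V) then w e else 0

/-- `w` is an edge `S`-weighting of `G` that properly colours the vertices by sums. -/
def ProperBySums {V : Type} [Fintype V] (G : SimpleGraph V) (S : Set ℝ)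
    (w : G.edgeSet → ℝ) : Prop :=
  (∀ e, w e ∈ S) ∧ ∀ u v, G.Adj u v → vertexSum w u ≠ vertexSum w v

/-- Two edge weightings are isomorphic if an automorphism of `G` carries one to the other. -/
def IsomorphicWeightings {V : Type} (G : SimpleGraph V) (w w' : G.edgeSet → ℝ) : Prop :=
  ∃ φ : G ≃g G, ∀ e : G.edgeSet, w' (φ.mapEdgeSet e) = w e

/-- `G` is uniquely `S`-weight colourable: it has an edge `S`-weighting properly colouring the
vertices by sums, and any two such weightings are isomorphic. -/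
def UniquelyWeightColourable {V : Type} [Fintype V] (G : SimpleGraph V) (S : Set ℝ) : Prop :=
  (∃ w : G.edgeSet → ℝ, ProperBySums G S w) ∧
    ∀ w w' : G.edgeSet → ℝ, ProperBySums G S w → ProperBySums G S w' →
      IsomorphicWeightings G w w'

/-- The disjoint union of `k` triangles, on the vertex set `{0, …, k-1} × {0, 1, 2}`. -/
def triangles (k : ℕ) : SimpleGraph (Fin k × Fin 3) where
  Adj p q := p.1 = q.1 ∧ p.2 ≠ q.2
  symm := ⟨fun _ _ h => ⟨h.1.symm, h.2.symm⟩⟩
  loopless := ⟨fun _ h => h.2 rfl⟩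

variable {k : ℕ}

theorem add_one_ne_add_two (a : Fin 3) : a + 1 ≠ a + 2 := by
  revert a; decide

/-- The edge of triangle `i` opposite to its vertex `a`. -/
def opp (p : Fin k × Fin 3) : (triangles k).edgeSet :=
  ⟨s((p.1, p.2 + 1), (p.1, p.2 + 2)), by
    rw [SimpleGraph.mem_edgeSet]
    exact ⟨rfl, add_one_ne_add_two _⟩⟩

theorem mem_opp (i j : Fin k) (a b : Fin 3) :
    (j, b) ∈ ((opp (i, a) : (triangles k).edgeSet) : Sym2 (Fin k × Fin 3)) ↔ j = i ∧ b ≠ a := by
  simp only [opp, Sym2.mem_iff, Prod.mk.injEq]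
  have : ∀ a b : Fin 3, (b = a + 1 ∨ b = a + 2) ↔ b ≠ a := by decide
  rw [← this a b]
  tauto

theorem opp_bijective : Function.Bijective (opp : Fin k × Fin 3 → (triangles k).edgeSet) := by
  constructor
  · have this₁ : ∀ a : Fin 3, a + 1 ≠ a := by decide
    have this₂ : ∀ a : Fin 3, a + 2 ≠ a := by decide
    rintro ⟨i, a⟩ ⟨j, b⟩ h
    have h1 : (i, a + 1) ∈ ((opp (i, a) : (triangles k).edgeSet) : Sym2 (Fin k × Fin 3)) := by
      rw [mem_opp]; exact ⟨rfl, this₁ a⟩
    have h2 : (i, a + 2) ∈ ((opp (i, a) : (triangles k).edgeSet) : Sym2 (Fin k × Fin 3)) := by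
      rw [mem_opp]; exact ⟨rfl, this₂ a⟩
    rw [h, mem_opp] at h1 h2
    obtain ⟨rfl, h1⟩ := h1
    have : ∀ a b : Fin 3, a + 1 ≠ b → a + 2 ≠ b → a = b := by decide
    rw [this a b h1 h2.2]
  · rintro ⟨e, he⟩
    induction e using Sym2.ind with
    | _ x y =>
      obtain ⟨i, x⟩ := x
      obtain ⟨j, y⟩ := y
      rw [SimpleGraph.mem_edgeSet] at he
      obtain ⟨h1, h2⟩ := he
      simp only at h1 h2
      subst h1
      have : ∀ x y : Fin 3, x ≠ y → ∃ a : Fin 3, ∀ b, (b ≠ a ↔ (b = x ∨ b = y)) := by decide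
      obtain ⟨a, ha⟩ := this x y h2
      refine ⟨(i, a), Subtype.ext (Sym2.ext ?_)⟩
      rintro ⟨j, b⟩
      rw [mem_opp, ha]
      simp only [Sym2.mem_iff, Prod.mk.injEq]
      tauto

/-- Edges of the disjoint union of triangles, indexed by their opposite vertices. -/
noncomputable def oppEquiv (k : ℕ) : Fin k × Fin 3 ≃ (triangles k).edgeSet :=
  Equiv.ofBijective opp opp_bijective

theorem vertexSum_eq (w : (triangles k).edgeSet → ℝ) (i : Fin k) (a : Fin 3) :
    vertexSum w (i, a) = (∑ b : Fin 3, w (opp (i, b))) - w (opp (i, a)) := by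
  classical
  unfold vertexSum
  rw [← Equiv.sum_comp (oppEquiv k)]
  have h1 : ∀ p : Fin k × Fin 3, (oppEquiv k p) = opp p := fun p => rfl
  simp only [h1]
  rw [Fintype.sum_prod_type]
  rw [Finset.sum_eq_single i]
  · have : ∀ b : Fin 3, (if (i, a) ∈ ((opp (i, b) : (triangles k).edgeSet) : Sym2 (Fin k × Fin 3))
        then w (opp (i, b)) else 0) = w (opp (i, b)) - if b = a then w (opp (i, b)) else 0 := by
      intro b
      by_cases hb : b = a
      · subst hb; simp [mem_opp]
      · have : a ≠ b := fun h => hb h.symm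
        simp [mem_opp, hb, this]
    rw [Finset.sum_congr rfl (fun b _ => this b), Finset.sum_sub_distrib]
    simp
  · intro j _ hj
    apply Finset.sum_eq_zero
    intro b _
    rw [if_neg]
    rw [mem_opp]
    rintro ⟨h, _⟩
    exact hj h.symm
  · intro h; exact absurd (Finset.mem_univ i) h

theorem injective_of_proper {S : Set ℝ} {w : (triangles k).edgeSet → ℝ}
    (hw : ProperBySums (triangles k) S w) (i : Fin k) :
    Function.Injective (fun a : Fin 3 => w (opp (i, a))) := by
  intro a b hab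
  by_contra hne
  refine hw.2 (i, a) (i, b) ⟨rfl, hne⟩ ?_
  rw [vertexSum_eq, vertexSum_eq]
  simp only at hab
  rw [hab]

/-- The three weights. -/
abbrev Three : Type := {x : ℝ // x ∈ ({1, 2, 3} : Finset ℝ)}

theorem card_three : Fintype.card Three = 3 := by
  rw [Fintype.card_coe]
  norm_num

/-- The weights of the triangle `i`, as a map from its vertices (opposite edges) to `{1, 2, 3}`. -/
noncomputable def weightMap {w : (triangles k).edgeSet → ℝ}
    (hw : ProperBySums (triangles k) {1, 2, 3} w) (i : Fin k) (a : Fin 3) : Three :=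
  ⟨w (opp (i, a)), by simpa using hw.1 (opp (i, a))⟩

theorem weightMap_bijective {w : (triangles k).edgeSet → ℝ}
    (hw : ProperBySums (triangles k) {1, 2, 3} w) (i : Fin k) :
    Function.Bijective (weightMap hw i) := by
  rw [Fintype.bijective_iff_injective_and_card]
  refine ⟨?_, by rw [card_three]; rfl⟩
  intro a b hab
  exact injective_of_proper hw i (congrArg Subtype.val hab)

/-- An automorphism permuting the vertices inside each triangle. -/
def permIso (π : Fin k → Equiv.Perm (Fin 3)) : triangles k ≃g triangles k where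
  toEquiv := Equiv.prodShear (Equiv.refl _) π
  map_rel_iff' := by
    rintro ⟨i, a⟩ ⟨j, b⟩
    simp only [Equiv.prodShear_apply, Equiv.refl_apply, triangles]
    constructor
    · rintro ⟨rfl, h⟩
      exact ⟨rfl, fun h' => h (by rw [h'])⟩
    · rintro ⟨rfl, h⟩
      exact ⟨rfl, fun h' => h ((π i).injective h')⟩

theorem permIso_opp (π : Fin k → Equiv.Perm (Fin 3)) (i : Fin k) (a : Fin 3) :
    (permIso π).mapEdgeSet (opp (i, a)) = opp (i, π i a) := by
  apply Subtype.ext
  apply Sym2.ext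
  rintro ⟨j, b⟩
  rw [mem_opp]
  show (j, b) ∈ Sym2.map (permIso π) ((opp (i, a) : (triangles k).edgeSet) : Sym2 _) ↔ _
  rw [Sym2.mem_map]
  constructor
  · rintro ⟨⟨j', b'⟩, h1, h2⟩
    rw [mem_opp] at h1
    obtain ⟨rfl, h1⟩ := h1
    have h3 : (j', π j' b') = (j, b) := h2
    rw [Prod.mk.injEq] at h3
    obtain ⟨rfl, rfl⟩ := h3
    exact ⟨rfl, fun h => h1 ((π j').injective h)⟩
  · rintro ⟨rfl, h1⟩
    refine ⟨(j, (π j).symm b), ?_, ?_⟩
    · rw [mem_opp]
      refine ⟨rfl, fun h => h1 ?_⟩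
      rw [← h, Equiv.apply_symm_apply]
    · show (j, π j ((π j).symm b)) = (j, b)
      rw [Equiv.apply_symm_apply]

/-- For every `k ≥ 1` the disjoint union of `k` triangles (for `k = 1`: the triangle `K_3`) has
an edge and is uniquely `{1, 2, 3}`-weight colourable. -/
theorem result (k : ℕ) (hk : 1 ≤ k) :
    (triangles k).edgeSet.Nonempty ∧ UniquelyWeightColourable (triangles k) {1, 2, 3} := by
  refine ⟨⟨_, (opp (⟨0, hk⟩, 0)).2⟩, ?_, ?_⟩
  · refine ⟨fun e => (((oppEquiv k).symm e).2 : ℕ) + 1, ?_, ?_⟩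
    · intro e
      obtain ⟨⟨i, a⟩, rfl⟩ := (oppEquiv k).surjective e
      show ((((oppEquiv k).symm (oppEquiv k (i, a))).2 : ℕ) : ℝ) + 1 ∈ ({1, 2, 3} : Set ℝ)
      rw [Equiv.symm_apply_apply]
      fin_cases a <;> norm_num
    · rintro ⟨i, a⟩ ⟨j, b⟩ ⟨h1, h2⟩
      simp only at h1 h2
      subst h1
      rw [vertexSum_eq, vertexSum_eq]
      have h3 : ∀ p : Fin k × Fin 3, (oppEquiv k).symm (opp p) = p :=
        fun p => (oppEquiv k).symm_apply_apply p
      simp only [h3]
      intro h4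
      have h5 : (((a : ℕ) : ℝ) + 1) = ((b : ℕ) : ℝ) + 1 := by linarith
      have h6 : ((a : ℕ) : ℝ) = ((b : ℕ) : ℝ) := by linarith
      exact h2 (Fin.ext (by exact_mod_cast h6))
  · intro w w' hw hw'
    let f : ∀ i, Fin 3 ≃ Three := fun i => Equiv.ofBijective _ (weightMap_bijective hw i)
    let f' : ∀ i, Fin 3 ≃ Three := fun i => Equiv.ofBijective _ (weightMap_bijective hw' i)
    refine ⟨permIso fun i => (f i).trans (f' i).symm, ?_⟩
    intro e
    obtain ⟨⟨i, a⟩, rfl⟩ := (oppEquiv k).surjective e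
    show w' ((permIso _).mapEdgeSet (opp (i, a))) = w (opp (i, a))
    rw [permIso_opp]
    have h1 : f' i ((f' i).symm (f i a)) = f i a := Equiv.apply_symm_apply _ _
    exact congrArg Subtype.val h1

end Pool.Agent.Results.MP_9e9a14_co.DisjointTriangles
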